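import Pool.Agent.Lib.MP_1ad17e_al_h97.Section

/-!
MP_1ad17e_al, section 6: the layer lemma (6.4) for the lower central series of a normal subgroup.
-/

set_option autoImplicit false

namespace E1adH97

open scoped commutatorElement
open Subgroup

universe u

variable {H : Type u} [Group H]

/-- an abelian section `A / B` of a group as a module with an action of the group -/
theorem exists_section (A B : Subgroup H) [A.Normal] [B.Normal] (hAB : ⁅A, A⁆ ≤ B) :
    ∃ (V : Type u) (_ : AddCommGroup V) (π : A → V) (ρ : H →* Module.End ℤ V),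
      Function.Surjective π ∧ (∀ x y : A, π (x * y) = π x + π y) ∧
      (∀ x : A, π x = 0 ↔ (x : H) ∈ B) ∧
      ∀ (g : H) (x : A), ρ g (π x) =
        π ⟨g * x * g⁻¹, Subgroup.Normal.conj_mem inferInstance _ x.2 g⟩ := by
  set B' : Subgroup A := B.subgroupOf A with hB'
  have hcomm : ∀ x y : A ⧸ B', x * y = y * x := by
    intro x y
    induction x using QuotientGroup.induction_on with
    | H x =>
      induction y using QuotientGroup.induction_on with
      | H y =>
        rw [← QuotientGroup.mk_mul, ← QuotientGroup.mk_mul, QuotientGroup.eq,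
          Subgroup.mem_subgroupOf]
        have h := hAB (Subgroup.commutator_mem_commutator (inv_mem y.2) (inv_mem x.2))
        rw [commutatorElement_def] at h
        simpa [mul_assoc] using h
  let _ : CommGroup (A ⧸ B') := { (inferInstance : Group (A ⧸ B')) with mul_comm := hcomm }
  -- conjugation by `g` on the quotient
  have hmap : ∀ g : H, B' ≤ B'.comap (MulAut.conjNormal g : MulAut A).toMonoidHom := by
    intro g x hx'
    rw [Subgroup.mem_comap, Subgroup.mem_subgroupOf]
    have := Subgroup.Normal.conj_mem (inferInstance : B.Normal) _ (Subgroup.mem_subgroupOf.1 hx') g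
    simpa using this
  let φ : H → (A ⧸ B') →* (A ⧸ B') := fun g => QuotientGroup.map B' B' _ (hmap g)
  let ρ0 : H → Module.End ℤ (Additive (A ⧸ B')) :=
    fun g => (MonoidHom.toAdditive (φ g)).toIntLinearMap
  have hρ : ∀ (g : H) (x : A), ρ0 g (Additive.ofMul (x : A ⧸ B')) =
      Additive.ofMul ((⟨g * x * g⁻¹,
        Subgroup.Normal.conj_mem inferInstance _ x.2 g⟩ : A) : A ⧸ B') := fun g x => rfl
  let ρ : H →* Module.End ℤ (Additive (A ⧸ B')) :=
    { toFun := ρ0
      map_one' := by
        ext x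
        induction x using Additive.rec with
        | ofMul x =>
          induction x using QuotientGroup.induction_on with
          | H x =>
            rw [hρ, Module.End.one_apply]
            exact congrArg (fun z : A => Additive.ofMul (z : A ⧸ B')) (Subtype.ext (by simp))
      map_mul' := by
        intro g g'
        ext x
        induction x using Additive.rec with
        | ofMul x =>
          induction x using QuotientGroup.induction_on with
          | H x =>
            rw [Module.End.mul_apply, hρ, hρ, hρ]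
            exact congrArg (fun z : A => Additive.ofMul (z : A ⧸ B'))
              (Subtype.ext (by simp [mul_assoc])) }
  refine ⟨Additive (A ⧸ B'), inferInstance, fun x => Additive.ofMul (x : A ⧸ B'), ρ, ?_, ?_, ?_, ?_⟩
  · intro x
    induction x using Additive.rec with
    | ofMul x =>
      induction x using QuotientGroup.induction_on with
      | H x => exact ⟨x, rfl⟩
  · intro x y
    rfl
  · intro x
    rw [← mem_subgroupOf, ← QuotientGroup.eq_one_iff]
    exact Iff.rfl
  · intro g x
    exact hρ g x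

/-- `[γ_j(Q), r; t] ≤ γ_(j+t)(T)` -/
theorem lcs_normal (Q : Subgroup H) [hQ : Q.Normal] (j : ℕ) : (Q.lowerCentralSeries j).Normal := by
  induction j with
  | zero => exact hQ
  | succ j ih =>
    rw [Subgroup.lowerCentralSeries_succ]
    exact Subgroup.commutator_normal _ _

theorem lcs_mono {Q T : Subgroup H} (h : Q ≤ T) (j : ℕ) :
    Q.lowerCentralSeries j ≤ T.lowerCentralSeries j := by
  induction j with
  | zero => exact h
  | succ j ih => exact Subgroup.commutator_mono ih h

/-- (6.4) -/
theorem layer64 [Finite H] (Q T : Subgroup H) [Q.Normal] (hT : IsPGroup 2 T) (hQT : Q ≤ T) (n : ℕ)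
    (hTn : T.lowerCentralSeries n = ⊥) (r : H) (hr : r ∈ T) (a : ℕ) (hx : r ^ (2 ^ (a + 1)) ∈ Q)
    (g : H) (hg : g ∈ normalClosure {r ^ (2 ^ a)} ⊔ Q) (hodd : Odd (orderOf g)) (j s : ℕ)
    (hs : n ≤ j + 2 ^ a * (s + 1)) :
    ∀ u ∈ Q.lowerCentralSeries j,
      g * u ^ (2 ^ s) * g⁻¹ * (u ^ (2 ^ s))⁻¹ ∈ Q.lowerCentralSeries (j + 1) := by
  have hA : (Q.lowerCentralSeries j).Normal := lcs_normal Q j
  have hB : (Q.lowerCentralSeries (j + 1)).Normal := lcs_normal Q (j + 1)
  have hAQ : Q.lowerCentralSeries j ≤ Q := by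
    have := Q.lowerCentralSeries_antitone (Nat.zero_le j)
    rwa [Subgroup.lowerCentralSeries_zero] at this
  have hAB : ⁅Q.lowerCentralSeries j, Q.lowerCentralSeries j⁆ ≤ Q.lowerCentralSeries (j + 1) := by
    rw [Subgroup.lowerCentralSeries_succ]
    exact Subgroup.commutator_mono le_rfl hAQ
  obtain ⟨V, hV, π, ρ, hπs, hπm, hπ0, hρ⟩ := exists_section _ _ hAB
  have hπ1 : π 1 = 0 := (hπ0 1).2 (one_mem _)
  have hπp : ∀ (m : ℕ) (x : Q.lowerCentralSeries j), π (x ^ m) = (m : ℤ) • π x := by
    intro m x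
    induction m with
    | zero => rw [pow_zero, hπ1, Nat.cast_zero, zero_smul]
    | succ m ih => rw [pow_succ, hπm, ih, Nat.cast_succ, add_smul, one_smul]
  have hπi : ∀ x : Q.lowerCentralSeries j, π x⁻¹ = - π x := by
    intro x
    have h := hπm x x⁻¹
    rw [mul_inv_cancel, hπ1] at h
    exact (neg_eq_of_add_eq_zero_right h.symm).symm
  -- `2 ^ N` kills `V`
  obtain ⟨N, hN⟩ : ∃ N, ∀ v : V, (2 : ℤ) ^ N • v = 0 := by
    have hQp : IsPGroup 2 (Q.lowerCentralSeries j) := hT.to_le (hAQ.trans hQT)
    obtain ⟨N, hN⟩ := (IsPGroup.iff_card).1 hQp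
    refine ⟨N, fun v => ?_⟩
    obtain ⟨x, rfl⟩ := hπs v
    have h := hπp (2 ^ N) x
    rw [← hN, pow_card_eq_one', hπ1, hN] at h
    rw [h]
    push_cast
    rfl
  -- `Q` acts trivially
  have hQt : ∀ q ∈ Q, ρ q = 1 := by
    intro q hq
    ext v
    obtain ⟨x, rfl⟩ := hπs v
    rw [hρ, Module.End.one_apply, ← sub_eq_zero, sub_eq_add_neg, ← hπi, ← hπm, hπ0]
    change q * (x : H) * q⁻¹ * (x : H)⁻¹ ∈ _
    have h := commutator_mem_commutator x.2 hq
    rw [← Subgroup.lowerCentralSeries_succ] at h
    have h2 := inv_mem h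
    rw [commutatorElement_inv, commutatorElement_def] at h2
    exact h2
  -- the element `x`
  have hP : (ρ r - 1) ^ (2 ^ a * (s + 1)) = 0 := by
    have claim : ∀ (t : ℕ) (x : Q.lowerCentralSeries j), ∃ c : Q.lowerCentralSeries j,
        (c : H) ∈ T.lowerCentralSeries (j + t) ∧ ((ρ r - 1) ^ t) (π x) = π c := by
      intro t
      induction t with
      | zero =>
        intro x
        exact ⟨x, lcs_mono hQT j x.2, rfl⟩
      | succ t ih =>
        intro x
        obtain ⟨c, hc, he⟩ := ih x
        have hmem : r * c * r⁻¹ * (c : H)⁻¹ ∈ Q.lowerCentralSeries j :=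
          mul_mem (Subgroup.Normal.conj_mem inferInstance _ c.2 r) (inv_mem c.2)
        refine ⟨⟨_, hmem⟩, ?_, ?_⟩
        · have h := commutator_mem_commutator hc hr
          rw [← Subgroup.lowerCentralSeries_succ] at h
          have h2 := inv_mem h
          rw [commutatorElement_inv, commutatorElement_def] at h2
          exact h2
        · rw [pow_succ', Module.End.mul_apply, he, LinearMap.sub_apply, Module.End.one_apply, hρ,
            sub_eq_add_neg, ← hπi, ← hπm]
          rfl
    ext v
    obtain ⟨x, rfl⟩ := hπs v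
    obtain ⟨c, hc, he⟩ := claim (2 ^ a * (s + 1)) x
    have hc1 : (c : H) = 1 := by
      have := T.lowerCentralSeries_antitone hs hc
      rwa [hTn, mem_bot] at this
    rw [he, LinearMap.zero_apply, hπ0, hc1]
    exact one_mem _
  have hx1 : (ρ r) ^ (2 ^ (a + 1)) = 1 := by
    rw [← map_pow]
    exact hQt _ hx
  -- the normal subgroup of the elements which are trivial on `2 ^ s V / 2 ^ (s + 1) V`
  let L : Subgroup H :=
    { carrier := {h | ∀ v : V, ∃ w : V, (2 : ℤ) ^ s • ((ρ h) v - v) = (2 : ℤ) ^ (s + 1) • w}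
      one_mem' := fun v => ⟨0, by rw [map_one, Module.End.one_apply, sub_self, smul_zero, smul_zero]⟩
      mul_mem' := by
        intro h h' hh hh' v
        obtain ⟨w, hw⟩ := hh v
        obtain ⟨w', hw'⟩ := hh' v
        refine ⟨ρ h w' + w, ?_⟩
        have e : (2 : ℤ) ^ s • ((ρ (h * h')) v - v) =
            ρ h ((2 : ℤ) ^ s • ((ρ h') v - v)) + (2 : ℤ) ^ s • ((ρ h) v - v) := by
          rw [map_mul, Module.End.mul_apply, map_zsmul, map_sub, ← smul_add]
          congr 1
          abel
        rw [e, hw, hw', map_zsmul, smul_add]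
      inv_mem' := by
        intro h hh v
        obtain ⟨w, hw⟩ := hh (ρ h⁻¹ v)
        refine ⟨-w, ?_⟩
        have e : ρ h (ρ h⁻¹ v) = v := by
          rw [← Module.End.mul_apply, ← map_mul, mul_inv_cancel, map_one, Module.End.one_apply]
        rw [e] at hw
        rw [smul_neg, ← hw, ← smul_neg]
        congr 1
        abel }
  have hL : L.Normal := by
    constructor
    intro h hh k v
    obtain ⟨w, hw⟩ := hh (ρ k⁻¹ v)
    refine ⟨ρ k w, ?_⟩
    have e : ρ k (ρ k⁻¹ v) = v := by
      rw [← Module.End.mul_apply, ← map_mul, mul_inv_cancel, map_one, Module.End.one_apply]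
    have e2 : (2 : ℤ) ^ s • ((ρ (k * h * k⁻¹)) v - v) =
        ρ k ((2 : ℤ) ^ s • ((ρ h) (ρ k⁻¹ v) - ρ k⁻¹ v)) := by
      rw [map_zsmul, map_sub, e, map_mul, map_mul, Module.End.mul_apply, Module.End.mul_apply]
    rw [e2, hw, map_zsmul]
  have hxL : r ^ (2 ^ a) ∈ L := by
    intro v
    obtain ⟨w, hw⟩ := layer_end (ρ r) a s hP hx1 v
    refine ⟨w, ?_⟩
    rw [map_pow]
    exact hw
  have hQL : Q ≤ L := by
    intro q hq v
    exact ⟨0, by rw [hQt q hq, Module.End.one_apply, sub_self, smul_zero, smul_zero]⟩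
  have hgL : g ∈ L := by
    have h1 : normalClosure {r ^ (2 ^ a)} ⊔ Q ≤ L := by
      refine sup_le (normalClosure_le_normal ?_) hQL
      rintro _ rfl
      exact hxL
    exact h1 hg
  have hgo : (ρ g) ^ (orderOf g) = 1 := by
    rw [← map_pow, pow_orderOf_eq_one, map_one]
  intro u hu
  have h := odd_trivial (ρ g) (orderOf g) hodd hgo s N hN hgL (π ⟨u, hu⟩)
  have e : (2 : ℤ) ^ s = ((2 ^ s : ℕ) : ℤ) := by push_cast; rfl
  rw [smul_sub, ← map_zsmul, e, ← hπp, hρ, sub_eq_add_neg, ← hπi, ← hπm, hπ0] at h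
  exact h

end E1adH97
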