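import Pool.Agent.Lib.MP_1ad17e_al_h97.ThmA

/-!
MP_1ad17e_al, section 5: Theorem A in abstract form.
-/

set_option autoImplicit false

namespace E1adH97

open scoped commutatorElement
open Subgroup E1adH4

variable {G : Type*} [Group G]

theorem comm_mul_left' (x y g : G) : ⁅x * y, g⁆ = x * ⁅y, g⁆ * x⁻¹ * ⁅x, g⁆ := by
  simp only [commutatorElement_def]
  group

theorem comm_mul_right' (x g h : G) : ⁅x, g * h⁆ = ⁅x, g⁆ * (g * ⁅x, h⁆ * g⁻¹) := by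
  simp only [commutatorElement_def]
  group

theorem comm_conj' (g x y : G) : g * ⁅x, y⁆ * g⁻¹ = ⁅g * x * g⁻¹, g * y * g⁻¹⁆ := by
  simp only [commutatorElement_def]
  group

/-- `[v, g] ∈ L` for a generated subgroup of `EZ D` -/
theorem comm_closure {D : Subgroup G} {L : Subgroup G} (hL : L ≤ EZ D) {S : Set G} {g : G}
    (hS : ∀ v ∈ S, v ∈ EZ D) (hg : ∀ v ∈ S, ⁅v, g⁆ ∈ L) {v : G} (hv : v ∈ closure S) :
    ⁅v, g⁆ ∈ L := by
  have hSc : closure S ≤ EZ D := (closure_le _).2 hS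
  refine closure_induction (p := fun v _ => ⁅v, g⁆ ∈ L) hg ?_ ?_ ?_ hv
  · rw [commutatorElement_one_left]
    exact one_mem _
  · intro x y hx _ hx2 hy2
    rw [comm_mul_left']
    refine mul_mem ?_ hx2
    have h1 : x * ⁅y, g⁆ * x⁻¹ = ⁅y, g⁆ := by
      rw [EZ_comm (hSc hx) (hL hy2), mul_assoc, mul_inv_cancel, mul_one]
    rw [h1]
    exact hy2
  · intro x hx hx2
    have e : ⁅x⁻¹, g⁆ = x⁻¹ * ⁅x, g⁆⁻¹ * x := by
      simp only [commutatorElement_def]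
      group
    have h1 : x⁻¹ * ⁅x, g⁆⁻¹ * x = ⁅x, g⁆⁻¹ := by
      rw [EZ_comm (inv_mem (hSc hx)) (inv_mem (hL hx2)), mul_assoc, inv_mul_cancel, mul_one]
    rw [e, h1]
    exact inv_mem hx2

/-- THEOREM A in abstract form -/
theorem theoremA {D T : Subgroup G} (hDT : D ≤ T) {n m j : ℕ} (hTn : T.lowerCentralSeries n = ⊥)
    (hn : n ≤ m + j + 1) (hj : 1 ≤ j) {b u y d s x : G} (hb : b * b = 1) (hbT : b ∈ T)
    (hbD : ∀ z ∈ D, b * z * b⁻¹ ∈ D) (hs : s ∈ D) (hx : x ∈ T) (hxL : (⟨x, hx⟩ : T) ∈ Lam T j)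
    (he : b = s * x) (huD : ∀ z ∈ D, u * z * u⁻¹ ∈ D) {o : ℕ} (ho : Odd o) (hu : u ^ o = 1)
    (hbu : b * u * b⁻¹ = u⁻¹) (hd : d ∈ D) (hdy : d ^ (2 ^ m) = y) (hy : y * y = 1)
    (hyE : ∀ c ∈ D, c * c = 1 → y * c = c * y) (hF1 : ∀ z ∈ D, b * (z * y * z⁻¹) = z * y * z⁻¹ * b) :
    ∀ z ∈ D, ⁅z, u * b⁆ * y = y * ⁅z, u * b⁆ := by
  have hbi : b⁻¹ = b := inv_eq_of_mul_eq_one_left hb
  have hyD : y ∈ D := by rw [← hdy]; exact pow_mem hd _
  have hyEZ : y ∈ EZ D := ⟨hyD, hy, hyE⟩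
  -- normalisers
  have nD : ∀ z ∈ D, ∀ w, w ∈ D ↔ z * w * z⁻¹ ∈ D := by
    intro z hz w
    constructor
    · exact fun hw => mul_mem (mul_mem hz hw) (inv_mem hz)
    · intro hw
      have h := mul_mem (mul_mem (inv_mem hz) hw) hz
      have e : z⁻¹ * (z * w * z⁻¹) * z = w := by group
      rwa [e] at h
  have nb : ∀ w, w ∈ D ↔ b * w * b⁻¹ ∈ D := by
    intro w
    refine ⟨hbD w, fun hw => ?_⟩
    have h := hbD _ hw
    have e : b * (b * w * b⁻¹) * b⁻¹ = (b * b) * w * (b * b)⁻¹ := by group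
    rw [e, hb, one_mul, inv_one, mul_one] at h
    exact h
  have huDn : ∀ i : ℕ, ∀ z ∈ D, u ^ i * z * (u ^ i)⁻¹ ∈ D := by
    intro i
    induction i with
    | zero =>
      intro z hz
      simpa using hz
    | succ i ih =>
      intro z hz
      have h := huD _ (ih z hz)
      have e : u ^ (i + 1) * z * (u ^ (i + 1))⁻¹ = u * (u ^ i * z * (u ^ i)⁻¹) * u⁻¹ := by
        rw [pow_succ']
        group
      rwa [e]
  have ho1 : 1 ≤ o := ho.pos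
  have hui : ∀ i : ℕ, (u ^ i)⁻¹ = u ^ ((o - 1) * i) := by
    intro i
    refine inv_eq_of_mul_eq_one_left ?_
    rw [← pow_add, show (o - 1) * i + i = o * i by
      obtain ⟨q, rfl⟩ := Nat.exists_eq_add_of_le ho1
      rw [Nat.add_sub_cancel_left]
      ring, pow_mul, hu, one_pow]
  have nu : ∀ i : ℕ, ∀ w, w ∈ D ↔ u ^ i * w * (u ^ i)⁻¹ ∈ D := by
    intro i w
    refine ⟨huDn i w, fun hw => ?_⟩
    have h := huDn ((o - 1) * i) _ hw
    rw [← hui] at h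
    have e : (u ^ i)⁻¹ * (u ^ i * w * (u ^ i)⁻¹) * ((u ^ i)⁻¹)⁻¹ = w := by group
    rwa [e] at h
  -- `b` inverts the powers of `u`
  have hbui : ∀ i : ℕ, b * u ^ i * b⁻¹ = (u ^ i)⁻¹ := by
    intro i
    rw [← conj_pow, hbu, inv_pow]
  have hbui' : ∀ i : ℕ, b * (u ^ i)⁻¹ = u ^ i * b := by
    intro i
    have h := hbui i
    have h2 : b * u ^ i = (u ^ i)⁻¹ * b := by
      rw [← h, inv_mul_cancel_right]
    calc b * (u ^ i)⁻¹ = u ^ i * ((u ^ i)⁻¹ * b) * (u ^ i)⁻¹ := by group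
      _ = u ^ i * (b * u ^ i) * (u ^ i)⁻¹ := by rw [h2]
      _ = u ^ i * b := by group
  -- the reflections `b_i = u ^ i b u ^ (-i) = u ^ (2 i) b`
  set bb : ℕ → G := fun i => u ^ i * b * (u ^ i)⁻¹ with hbb
  have hbbe : ∀ i, bb i = u ^ (2 * i) * b := by
    intro i
    simp only [hbb]
    rw [mul_assoc, hbui', ← mul_assoc, ← pow_add, two_mul]
  have nbb : ∀ i, ∀ w, w ∈ D ↔ bb i * w * (bb i)⁻¹ ∈ D := by
    intro i w
    rw [hbbe, nb w, nu (2 * i)]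
    have e : u ^ (2 * i) * (b * w * b⁻¹) * (u ^ (2 * i))⁻¹ =
        u ^ (2 * i) * b * w * (u ^ (2 * i) * b)⁻¹ := by group
    rw [e]
  have hbb2 : ∀ i, bb i * bb i = 1 := by
    intro i
    simp only [hbb]
    calc u ^ i * b * (u ^ i)⁻¹ * (u ^ i * b * (u ^ i)⁻¹) = u ^ i * (b * b) * (u ^ i)⁻¹ := by group
      _ = 1 := by rw [hb]; group
  -- the group `V`
  set S : Set G := {v | ∃ i : ℕ, ∃ z ∈ D, v = u ^ i * (z * y * z⁻¹) * (u ^ i)⁻¹} with hS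
  set V : Subgroup G := closure S with hV
  have hSE : ∀ v ∈ S, v ∈ EZ D := by
    rintro _ ⟨i, z, hz, rfl⟩
    exact EZ_conj (nu i) (EZ_conj (nD z hz) hyEZ)
  have hVE : V ≤ EZ D := (closure_le _).2 hSE
  have hyV : y ∈ V := subset_closure ⟨0, 1, one_mem _, by simp⟩
  have hVconj : ∀ g : G, (∀ v ∈ S, g * v * g⁻¹ ∈ S) → ∀ v ∈ V, g * v * g⁻¹ ∈ V := by
    intro g hg v hv
    refine closure_induction (p := fun v _ => g * v * g⁻¹ ∈ V) (fun v hv => subset_closure (hg v hv))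
      ?_ ?_ ?_ hv
    · rw [mul_one, mul_inv_cancel]
      exact one_mem _
    · intro x y _ _ hx hy
      have e : g * (x * y) * g⁻¹ = (g * x * g⁻¹) * (g * y * g⁻¹) := by group
      rw [e]
      exact mul_mem hx hy
    · intro x _ hx
      have e : g * x⁻¹ * g⁻¹ = (g * x * g⁻¹)⁻¹ := by group
      rw [e]
      exact inv_mem hx
  have hVu : ∀ i : ℕ, ∀ v ∈ V, u ^ i * v * (u ^ i)⁻¹ ∈ V := by
    intro i
    refine hVconj _ ?_
    rintro _ ⟨k, z, hz, rfl⟩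
    refine ⟨i + k, z, hz, ?_⟩
    rw [pow_add]
    group
  have hVui : ∀ i : ℕ, ∀ v ∈ V, (u ^ i)⁻¹ * v * u ^ i ∈ V := by
    intro i v hv
    have h := hVu ((o - 1) * i) v hv
    rwa [← hui, inv_inv] at h
  have hVD : ∀ z ∈ D, ∀ v ∈ V, z * v * z⁻¹ ∈ V := by
    intro z hz
    refine hVconj _ ?_
    rintro _ ⟨k, w, hw, rfl⟩
    have hz' : (u ^ k)⁻¹ * z * u ^ k ∈ D := by
      have h := huDn ((o - 1) * k) z hz
      rwa [← hui, inv_inv] at h
    refine ⟨k, (u ^ k)⁻¹ * z * u ^ k * w, mul_mem hz' hw, ?_⟩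
    group
  -- (5.2)
  have base : ∀ v ∈ V, ⁅v, b⁆ ∈ Ec D m := by
    intro v hv
    have hle : Ec D m ≤ EZ D := fun w hw => hw.1
    refine comm_closure hle hSE ?_ hv
    rintro _ ⟨i, z, hz, rfl⟩
    set q := u ^ i * (z * d * z⁻¹) * (u ^ i)⁻¹ with hq
    have hqD : q ∈ D := huDn i _ (mul_mem (mul_mem hz hd) (inv_mem hz))
    have hqy : q ^ (2 ^ m) = u ^ i * (z * y * z⁻¹) * (u ^ i)⁻¹ := by
      rw [hq, conj_pow, conj_pow, hdy]
    obtain ⟨a, ha, κ, hκT, hκ2, hκc, hE⟩ := lemA hDT hTn hn hj hb hbT hbD hs hx hxL he hqD (l := m)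
    rw [hqy] at hE
    have hv0 : u ^ i * (z * y * z⁻¹) * (u ^ i)⁻¹ ∈ EZ D := hSE _ ⟨i, z, hz, rfl⟩
    have hvE : ⁅u ^ i * (z * y * z⁻¹) * (u ^ i)⁻¹, b⁆ ∈ EZ D := by
      have e : ⁅u ^ i * (z * y * z⁻¹) * (u ^ i)⁻¹, b⁆ = (u ^ i * (z * y * z⁻¹) * (u ^ i)⁻¹) *
          (b * (u ^ i * (z * y * z⁻¹) * (u ^ i)⁻¹)⁻¹ * b⁻¹) := by
        rw [commutatorElement_def]
        group
      rw [e]
      exact mul_mem hv0 (EZ_conj nb (inv_mem hv0))
    have haD : a ∈ D := by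
      have h := D.lowerCentralSeries_antitone (Nat.zero_le m) ha
      rwa [Subgroup.lowerCentralSeries_zero] at h
    have hκD : κ ∈ D := by
      have e : κ = a⁻¹ * ⁅u ^ i * (z * y * z⁻¹) * (u ^ i)⁻¹, b⁆ := by rw [hE]; group
      rw [e]
      exact mul_mem (inv_mem haD) hvE.1
    have hκC : κ ∈ CZ D := ⟨hκD, hκ2, fun t ht => hκc t (hDT ht)⟩
    refine ⟨hvE, κ, hκC, ?_⟩
    rw [hE, mul_assoc, hκ2, mul_one]
    exact ha
  -- (5.3)
  have step3 : ∀ c, m ≤ c → ∀ v ∈ Ec D c, ⁅v, b⁆ ∈ Ec D (c + 1) := by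
    rintro c hc v ⟨hvE, κ, hκ, hvκ⟩
    -- `v = e * κ⁻¹` with `e = v κ`
    set e := v * κ with hee
    have heE : e ∈ EZ D := mul_mem hvE (CZ_le_EZ D hκ)
    have hbκ : ⁅κ⁻¹, b⁆ ∈ CZ D := by
      have e1 : ⁅κ⁻¹, b⁆ = κ⁻¹ * (b * κ * b⁻¹) := by
        rw [commutatorElement_def, inv_inv]
        group
      rw [e1]
      exact mul_mem (inv_mem hκ) (CZ_conj nb hκ)
    have hB := lemB hDT hTn (by omega : n ≤ c + j + 1) hx hxL heE.2.1 (hDT heE.1) hvκ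
    have hxE : ⁅e, x⁆ ∈ CZ D := by
      refine ⟨?_, hB.1, fun t ht => hB.2 t (hDT ht)⟩
      have hxD : x = s⁻¹ * b := by rw [he]; group
      have e1 : ⁅e, x⁆ = e * (s⁻¹ * (b * e⁻¹ * b⁻¹) * (s⁻¹)⁻¹) := by
        rw [hxD, commutatorElement_def]
        group
      rw [e1]
      exact mul_mem heE.1 (mul_mem (mul_mem (inv_mem hs) (hbD _ (inv_mem heE.1)))
        (inv_mem (inv_mem hs)))
    have hes : ⁅e, b⁆ ∈ Ec D (c + 1) := by
      have hebE : ⁅e, b⁆ ∈ EZ D := by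
        have e1 : ⁅e, b⁆ = e * (b * e⁻¹ * b⁻¹) := by
          rw [commutatorElement_def]
          group
        rw [e1]
        exact mul_mem heE (EZ_conj nb (inv_mem heE))
      have e2 : ⁅e, b⁆ = ⁅e, s⁆ * ⁅e, x⁆ := by
        conv_lhs => rw [he]
        rw [comm_mul_right', ← hxE.2.2 s hs, mul_assoc ⁅e, x⁆ s, mul_inv_cancel, mul_one]
      refine ⟨hebE, ⁅e, x⁆, hxE, ?_⟩
      rw [e2, mul_assoc, hxE.2.1, mul_one]
      exact commutator_mem_commutator hvκ hs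
    have e3 : v = e * κ⁻¹ := by rw [hee]; group
    have e4 : ⁅v, b⁆ = ⁅κ⁻¹, b⁆ * ⁅e, b⁆ := by
      rw [e3, comm_mul_left', ← (hbκ).2.2 e heE.1, mul_assoc ⁅κ⁻¹, b⁆ e, mul_inv_cancel, mul_one]
    rw [e4]
    exact mul_mem (CZ_le_Ec D _ hbκ) hes
  -- consequences of `[V, b] ≤ L` for `L = Ec D c` or `L = CZ D`
  have cons : ∀ L : Subgroup G, L ≤ EZ D → (∀ g : G, (∀ z, z ∈ D ↔ g * z * g⁻¹ ∈ D) → ∀ v ∈ L,
      g * v * g⁻¹ ∈ L) → (∀ v ∈ V, ⁅v, b⁆ ∈ L) → (∀ i : ℕ, ∀ v ∈ V, ⁅v, bb i⁆ ∈ L) ∧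
      ∀ i : ℕ, ∀ v ∈ V, ⁅v, u ^ i⁆ ∈ L := by
    intro L hLE hLc hL
    have h1 : ∀ i : ℕ, ∀ v ∈ V, ⁅v, bb i⁆ ∈ L := by
      intro i v hv
      have h2 := hL _ (hVui i v hv)
      have h3 := hLc _ (nu i) _ h2
      rw [comm_conj'] at h3
      have e : u ^ i * ((u ^ i)⁻¹ * v * u ^ i) * (u ^ i)⁻¹ = v := by group
      rwa [e] at h3
    refine ⟨h1, ?_⟩
    have h2 : ∀ i : ℕ, ∀ v ∈ V, ⁅v, u ^ (2 * i)⁆ ∈ L := by
      intro i v hv
      have e : u ^ (2 * i) = bb i * b := by rw [hbbe, mul_assoc, hb, mul_one]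
      rw [e, comm_mul_right']
      exact mul_mem (h1 i v hv) (hLc _ (nbb i) _ (hL v hv))
    intro i v hv
    obtain ⟨q, hq⟩ := ho
    have e : u ^ i = u ^ (2 * ((q + 1) * i)) := by
      have : 2 * ((q + 1) * i) = o * i + i := by rw [hq]; ring
      rw [this, pow_add, pow_mul, hu, one_pow, one_mul]
    rw [e]
    exact h2 _ v hv
  -- (5.4)
  have step4 : ∀ c, m ≤ c → ∀ v ∈ V, ⁅v, b⁆ ∈ Ec D c := by
    intro c hc
    induction c, hc using Nat.le_induction with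
    | base => exact base
    | succ c hc ih =>
      have hle : Ec D c ≤ EZ D := fun w hw => hw.1
      have hle' : Ec D (c + 1) ≤ EZ D := fun w hw => hw.1
      obtain ⟨-, h2⟩ := cons (Ec D c) hle (fun g hg v hv => Ec_conj hg hv) ih
      intro v hv
      refine comm_closure hle' hSE ?_ hv
      rintro _ ⟨i, z, hz, rfl⟩
      set w := z * y * z⁻¹ with hw
      have hwV : w ∈ V := subset_closure ⟨0, z, hz, by simp [hw]⟩
      have hwb : ⁅w, b⁆ = 1 := commutatorElement_eq_one_iff_mul_comm.2 (hF1 z hz).symm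
      -- `u ^ i w u ^ (-i) = [u ^ i, w] w = [w, u ^ i]⁻¹ w`
      have e1 : u ^ i * w * (u ^ i)⁻¹ = ⁅w, u ^ i⁆⁻¹ * w := by
        rw [commutatorElement_def]
        group
      have h3 : ⁅w, u ^ i⁆⁻¹ ∈ Ec D c := inv_mem (h2 i w hwV)
      rw [e1, comm_mul_left', hwb, mul_one, mul_inv_cancel, one_mul]
      exact step3 c hc _ h3
  have hDn : D.lowerCentralSeries (max m n) = ⊥ := by
    have h1 : D.lowerCentralSeries (max m n) ≤ T.lowerCentralSeries (max m n) := by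
      generalize max m n = c
      induction c with
      | zero => exact hDT
      | succ c ih => exact Subgroup.commutator_mono ih hDT
    have h2 := h1.trans (T.lowerCentralSeries_antitone (le_max_right m n))
    rw [hTn] at h2
    exact eq_bot_iff.2 h2
  have fin4 : ∀ v ∈ V, ⁅v, b⁆ ∈ CZ D := fun v hv =>
    Ec_le_CZ hDn (step4 (max m n) (le_max_left _ _) v hv)
  obtain ⟨hVb, hVuc⟩ := cons (CZ D) (CZ_le_EZ D) (fun g hg v hv => CZ_conj hg hv) fin4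
  -- (5.8): `[y, [z, b_i]]`
  have h58 : ∀ i : ℕ, ∀ z ∈ D, ⁅y, ⁅z, bb i⁆⁆ ∈ CZ D ∧
      bb i * ⁅y, ⁅z, bb i⁆⁆ = ⁅y, ⁅z, bb i⁆⁆ * bb i ∧ b * ⁅y, ⁅z, bb i⁆⁆ = ⁅y, ⁅z, bb i⁆⁆ * b := by
    intro i z hz
    set β := bb i with hβ
    have hβ2 : β * β = 1 := hbb2 i
    have hβi : β⁻¹ = β := inv_eq_of_mul_eq_one_left hβ2
    -- elements `[v, β]` are fixed by `β`
    have hfix : ∀ v ∈ V, β * ⁅v, β⁆ * β⁻¹ = ⁅v, β⁆ := by
      intro v hv
      have h1 := (hVb i v hv).2.1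
      have h2 : β * ⁅v, β⁆ * β⁻¹ = ⁅v, β⁆⁻¹ := by
        rw [commutatorElement_def, hβi]
        calc β * (v * β * v⁻¹ * β) * β = β * v * β * v⁻¹ * (β * β) := by group
          _ = β * v * β * v⁻¹ := by rw [hβ2, mul_one]
          _ = (v * β⁻¹ * v⁻¹ * β⁻¹)⁻¹ := by group
          _ = (v * β * v⁻¹ * β)⁻¹ := by rw [hβi]
      rw [h2]
      exact inv_eq_of_mul_eq_one_left h1
    set y1 := z⁻¹ * y * z with hy1
    have hy1V : y1 ∈ V := by
      have h := hVD _ (inv_mem hz) y hyV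
      rwa [inv_inv] at h
    set c0 := ⁅y, β⁆ with hc0
    set c1 := ⁅y1, β⁆ with hc1
    have hc0C : c0 ∈ CZ D := hVb i y hyV
    have hc1C : c1 ∈ CZ D := hVb i y1 hy1V
    have hδD : ⁅z, β⁆ ∈ D := by
      have e : ⁅z, β⁆ = z * (β * z⁻¹ * β⁻¹) := by
        rw [commutatorElement_def]
        group
      rw [e]
      exact mul_mem hz ((nbb i _).1 (inv_mem hz))
    -- the computation
    have hkey : ⁅y, ⁅z, β⁆⁆ = c0 * c1 := by
      -- `β y⁻¹ β = y⁻¹ c0`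
      have k0 : β * y⁻¹ * β⁻¹ = y⁻¹ * c0 := by
        rw [hc0, commutatorElement_def]
        group
      have k1 : β * y1⁻¹ * β⁻¹ = y1⁻¹ * c1 := by
        rw [hc1, commutatorElement_def]
        group
      have f0 : β * c0 * β⁻¹ = c0 := hfix y hyV
      have e1 : ⁅y, ⁅z, β⁆⁆ = y * (z * (β * (z⁻¹ * (β⁻¹ * y⁻¹ * β) * z) * β⁻¹) * z⁻¹) := by
        simp only [commutatorElement_def]
        group
      have k0' : β⁻¹ * y⁻¹ * β = y⁻¹ * c0 := by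
        rw [← k0, hβi]
      have e2 : z⁻¹ * (y⁻¹ * c0) * z = y1⁻¹ * c0 := by
        calc z⁻¹ * (y⁻¹ * c0) * z = z⁻¹ * y⁻¹ * (c0 * z) := by group
          _ = z⁻¹ * y⁻¹ * (z * c0) := by rw [hc0C.2.2 z hz]
          _ = y1⁻¹ * c0 := by rw [hy1]; group
      have e3 : β * (y1⁻¹ * c0) * β⁻¹ = y1⁻¹ * c1 * c0 := by
        calc β * (y1⁻¹ * c0) * β⁻¹ = (β * y1⁻¹ * β⁻¹) * (β * c0 * β⁻¹) := by group
          _ = y1⁻¹ * c1 * c0 := by rw [k1, f0]
      have e4 : z * (y1⁻¹ * c1 * c0) * z⁻¹ = y⁻¹ * (c1 * c0) := by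
        calc z * (y1⁻¹ * c1 * c0) * z⁻¹ = z * y1⁻¹ * (c1 * c0) * z⁻¹ := by group
          _ = z * y1⁻¹ * ((c1 * c0) * z⁻¹) := by group
          _ = z * y1⁻¹ * (z⁻¹ * (c1 * c0)) := by
            rw [(mul_mem hc1C hc0C).2.2 z⁻¹ (inv_mem hz)]
          _ = y⁻¹ * (c1 * c0) := by rw [hy1]; group
      rw [e1, k0', e2, e3, e4, ← mul_assoc, mul_inv_cancel, one_mul, hc1C.2.2 c0 hc0C.1]
    refine ⟨?_, ?_, ?_⟩
    · rw [hkey]
      exact mul_mem hc0C hc1C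
    · rw [hkey]
      have f0 : β * c0 * β⁻¹ = c0 := hfix y hyV
      have f1 : β * c1 * β⁻¹ = c1 := hfix y1 hy1V
      calc β * (c0 * c1) = (β * c0 * β⁻¹) * (β * c1 * β⁻¹) * β := by group
        _ = c0 * c1 * β := by rw [f0, f1]
    · -- `[y, δ] = y * (δ y δ⁻¹)⁻¹`, both fixed by `b`
      have e : ⁅y, ⁅z, β⁆⁆ = y * (⁅z, β⁆ * y * ⁅z, β⁆⁻¹)⁻¹ := by
        simp only [commutatorElement_def]
        group
      rw [e]
      have g1 : b * y = y * b := by simpa using hF1 1 (one_mem _)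
      have g2 := hF1 _ hδD
      have g3 : b * (⁅z, β⁆ * y * ⁅z, β⁆⁻¹)⁻¹ = (⁅z, β⁆ * y * ⁅z, β⁆⁻¹)⁻¹ * b := by
        exact (Commute.inv_right (show Commute b (⁅z, β⁆ * y * ⁅z, β⁆⁻¹) from g2))
      rw [← mul_assoc, g1, mul_assoc, g3, ← mul_assoc]
  -- the elements fixed by `b` and `b_i` are fixed by `u ^ (2 i)`
  have hcu : ∀ i : ℕ, ∀ θ : G, bb i * θ = θ * bb i → b * θ = θ * b → u ^ (2 * i) * θ = θ * u ^ (2 * i) := by
    intro i θ h1 h2
    have e : u ^ (2 * i) = bb i * b := by rw [hbbe, mul_assoc, hb, mul_one]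
    rw [e, mul_assoc, h2, ← mul_assoc, h1, mul_assoc]
  obtain ⟨q, hq⟩ := ho
  have hcu1 : ∀ i : ℕ, i = q + 1 ∨ i = 1 → ∀ θ : G, bb i * θ = θ * bb i → b * θ = θ * b →
      u * θ = θ * u := by
    intro i hi θ h1 h2
    have h3 := hcu i θ h1 h2
    rcases hi with rfl | rfl
    · have e : u ^ (2 * (q + 1)) = u := by
        rw [show 2 * (q + 1) = o + 1 by omega, pow_succ, hu, one_mul]
      rwa [e] at h3
    · have h4 : Commute (u ^ 2) θ := by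
        rw [mul_one] at h3
        exact h3
      have h5 := h4.pow_left (q + 1)
      rw [← pow_mul, show 2 * (q + 1) = o + 1 by omega, pow_succ, hu, one_mul] at h5
      exact h5
  -- `[y, [z, u]]` lies in `C_0` and is fixed by `u`
  have hzu : ∀ z ∈ D, ⁅z, u⁆ ∈ D ∧ ⁅y, ⁅z, u⁆⁆ ∈ CZ D ∧ u * ⁅y, ⁅z, u⁆⁆ = ⁅y, ⁅z, u⁆⁆ * u := by
    intro z hz
    have e0 : u = bb (q + 1) * b := by
      rw [hbbe, mul_assoc, hb, mul_one, show 2 * (q + 1) = o + 1 by omega, pow_succ, hu, one_mul]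
    have e1 : bb (q + 1) * b * (bb (q + 1))⁻¹ = bb 1 := by
      have e2 : bb (q + 1) = u * b := by
        rw [hbbe, show 2 * (q + 1) = o + 1 by omega, pow_succ, hu, one_mul]
      rw [e2]
      simp only [hbb]
      rw [pow_one]
      calc u * b * b * (u * b)⁻¹ = u * (b * b) * b⁻¹ * u⁻¹ := by group
        _ = u * b * u⁻¹ := by rw [hb, mul_one, hbi]
    set δ1 := ⁅z, bb (q + 1)⁆ with hδ1
    set z' := bb (q + 1) * z * (bb (q + 1))⁻¹ with hz'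
    have hz'D : z' ∈ D := (nbb _ _).1 hz
    set δ2 := ⁅z', bb 1⁆ with hδ2
    have e3 : ⁅z, u⁆ = δ1 * δ2 := by
      conv_lhs => rw [e0]
      rw [comm_mul_right', comm_conj', e1]
    obtain ⟨a1, a2, a3⟩ := h58 (q + 1) z hz
    obtain ⟨b1, b2, b3⟩ := h58 1 z' hz'D
    have hδ1D : δ1 ∈ D := by
      have e : δ1 = z * (bb (q + 1) * z⁻¹ * (bb (q + 1))⁻¹) := by
        rw [hδ1, commutatorElement_def]
        group
      rw [e]
      exact mul_mem hz ((nbb _ _).1 (inv_mem hz))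
    have hδ2D : δ2 ∈ D := by
      have e : δ2 = z' * (bb 1 * z'⁻¹ * (bb 1)⁻¹) := by
        rw [hδ2, commutatorElement_def]
        group
      rw [e]
      exact mul_mem hz'D ((nbb _ _).1 (inv_mem hz'D))
    have e4 : ⁅y, ⁅z, u⁆⁆ = ⁅y, δ1⁆ * ⁅y, δ2⁆ := by
      rw [e3, comm_mul_right', ← b1.2.2 δ1 hδ1D, mul_assoc ⁅y, δ2⁆ δ1, mul_inv_cancel, mul_one]
    refine ⟨by rw [e3]; exact mul_mem hδ1D hδ2D, by rw [e4]; exact mul_mem a1 b1, ?_⟩
    have c1 := hcu1 (q + 1) (Or.inl rfl) _ a2 a3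
    have c2 := hcu1 1 (Or.inr rfl) _ b2 b3
    rw [e4, ← mul_assoc, c1, mul_assoc, c2, ← mul_assoc]
  -- telescoping
  have htel : ∀ z ∈ D, ⁅z, u⁆ * y = y * ⁅z, u⁆ := by
    intro z hz
    obtain ⟨hδD, hφC, hφu⟩ := hzu z hz
    set φ := ⁅y, ⁅z, u⁆⁆ with hφ
    have hφui : ∀ i : ℕ, u ^ i * φ * (u ^ i)⁻¹ = φ := by
      intro i
      have h : Commute u φ := hφu
      have h2 : u ^ i * φ = φ * u ^ i := h.pow_left i
      rw [h2, mul_assoc, mul_inv_cancel, mul_one]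
    -- `[y, u ^ i δ u ^ (-i)] = φ`
    have h1 : ∀ i : ℕ, ⁅y, u ^ i * ⁅z, u⁆ * (u ^ i)⁻¹⁆ = φ := by
      intro i
      set ε := ⁅y, (u ^ i)⁻¹⁆ with hε
      have hεC : ε ∈ CZ D := by
        have h := hVuc ((o - 1) * i) y hyV
        rwa [← hui] at h
      have e1 : (u ^ i)⁻¹ * y * u ^ i = ε⁻¹ * y := by
        rw [hε, commutatorElement_def]
        group
      have e2 : ⁅y, u ^ i * ⁅z, u⁆ * (u ^ i)⁻¹⁆ =
          u ^ i * ⁅(u ^ i)⁻¹ * y * u ^ i, ⁅z, u⁆⁆ * (u ^ i)⁻¹ := by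
        rw [comm_conj']
        congr 1
        group
      have e3 : ⁅ε⁻¹ * y, ⁅z, u⁆⁆ = φ := by
        rw [comm_mul_left', ← hφ]
        have h2 : ⁅ε⁻¹, ⁅z, u⁆⁆ = 1 :=
          commutatorElement_eq_one_iff_mul_comm.2 ((inv_mem hεC).2.2 _ hδD)
        rw [h2, mul_one, (inv_mem hεC).2.2 φ hφC.1, mul_assoc, mul_inv_cancel, mul_one]
      rw [e2, e1, e3, hφui]
    -- the product
    have h2 : ∀ i : ℕ, ∃ A ∈ D, A = z * (u ^ i * z⁻¹ * (u ^ i)⁻¹) ∧ ⁅y, A⁆ = φ ^ i := by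
      intro i
      induction i with
      | zero =>
        refine ⟨1, one_mem _, by group, ?_⟩
        rw [commutatorElement_one_right, pow_zero]
      | succ i ih =>
        obtain ⟨A, hA, hAe, hAφ⟩ := ih
        set B := u ^ i * ⁅z, u⁆ * (u ^ i)⁻¹ with hB
        have hBD : B ∈ D := huDn i _ hδD
        refine ⟨A * B, mul_mem hA hBD, ?_, ?_⟩
        · rw [hAe, hB, commutatorElement_def, pow_succ]
          group
        · rw [comm_mul_right', h1 i, hAφ, ← hφC.2.2 A hA, mul_assoc φ A, mul_inv_cancel, mul_one,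
            pow_succ]
    obtain ⟨A, hA, hAe, hAφ⟩ := h2 o
    have hA1 : A = 1 := by
      rw [hAe, hu]
      group
    rw [hA1, commutatorElement_one_right] at hAφ
    have hφ1 : φ = 1 := by
      have h3 : φ ^ o = φ := by
        rw [hq, pow_succ, pow_mul, pow_two, hφC.2.1, one_pow, one_mul]
      rw [← h3, ← hAφ]
    have h4 := commutatorElement_eq_one_iff_mul_comm.1 (hφ.symm.trans hφ1)
    exact h4.symm
  have htel' : ∀ i : ℕ, ∀ z ∈ D, ⁅z, u ^ i⁆ * y = y * ⁅z, u ^ i⁆ := by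
    intro i
    induction i with
    | zero =>
      intro z _
      rw [pow_zero, commutatorElement_one_right, one_mul, mul_one]
    | succ i ih =>
      intro z hz
      have e : ⁅z, u ^ (i + 1)⁆ = ⁅z, u ^ i⁆ * ⁅u ^ i * z * (u ^ i)⁻¹, u⁆ := by
        rw [pow_succ, comm_mul_right', comm_conj']
        congr 2
        group
      rw [e, mul_assoc, htel _ (huDn i z hz), ← mul_assoc, ih z hz, mul_assoc]
  -- (5.9)
  intro z hz
  have e0 : u * b = bb (q + 1) := by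
    rw [hbbe, show 2 * (q + 1) = o + 1 by omega, pow_succ, hu, one_mul]
  rw [e0]
  set h := q + 1 with hh
  have hz1D : (u ^ h)⁻¹ * z * u ^ h ∈ D := by
    have h1 := huDn ((o - 1) * h) z hz
    rwa [← hui, inv_inv] at h1
  set z1 := (u ^ h)⁻¹ * z * u ^ h with hz1
  set x1 := ⁅z1, b⁆ with hx1
  have hx1D : x1 ∈ D := by
    have e : x1 = z1 * (b * z1⁻¹ * b⁻¹) := by
      rw [hx1, commutatorElement_def]
      group
    rw [e]
    exact mul_mem hz1D (hbD _ (inv_mem hz1D))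
  have hx1y : x1 * y = y * x1 := by
    have g1 : b * y = y * b := by simpa using hF1 1 (one_mem _)
    have g2 := hF1 _ (inv_mem hz1D)
    rw [inv_inv] at g2
    rw [hx1, commutatorElement_def, hbi]
    calc z1 * b * z1⁻¹ * b * y = z1 * b * z1⁻¹ * (b * y) := by group
      _ = z1 * b * z1⁻¹ * (y * b) := by rw [g1]
      _ = z1 * (b * (z1⁻¹ * y * z1)) * z1⁻¹ * b := by group
      _ = z1 * (z1⁻¹ * y * z1 * b) * z1⁻¹ * b := by rw [g2]
      _ = y * (z1 * b * z1⁻¹ * b) := by group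
  have e1 : ⁅z, bb h⁆ = ⁅x1, u ^ h⁆⁻¹ * x1 := by
    have e2 : ⁅z, bb h⁆ = u ^ h * x1 * (u ^ h)⁻¹ := by
      rw [hx1, comm_conj', hz1]
      congr 1
      group
    rw [e2, commutatorElement_def]
    group
  have h5 : ⁅x1, u ^ h⁆⁻¹ * y = y * ⁅x1, u ^ h⁆⁻¹ := by
    have h6 : Commute ⁅x1, u ^ h⁆ y := htel' h x1 hx1D
    exact h6.inv_left
  rw [e1, mul_assoc, hx1y, ← mul_assoc, h5, mul_assoc]

end E1adH97
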