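import Pool.Agent.Lib.MP_1ad17e_al_h4.Lam

/-!
MP_1ad17e_al, section 5: Theorem A in abstract form.
-/

set_option autoImplicit false

namespace E1adH97

open scoped commutatorElement
open Subgroup E1adH4

section inT

variable {H : Type*} [Group H]

theorem KS_sq {c : H} (hc : c * c = 1) {j : ℕ} {k : H} (hk : k ∈ KS (normalClosure {c}) j) :
    k * k ∈ KS (normalClosure {c}) (j + 1) :=
  ((PW_all (m := 0) hc (by rw [pow_zero, pow_one]) 1 (by norm_num)) j).2 k hk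

theorem KS_eq_one {N : Subgroup H} {n c j : ℕ} (hH : (⊤ : Subgroup H).lowerCentralSeries n = ⊥)
    (hN : N ≤ (⊤ : Subgroup H).lowerCentralSeries c) (hn : n ≤ c + j) {k : H} (hk : k ∈ KS N j) :
    k = 1 := by
  have h := (⊤ : Subgroup H).lowerCentralSeries_antitone hn (KS_le_lcs' hN j hk)
  rwa [hH, mem_bot] at h

theorem commute_of_KS {N : Subgroup H} {n c j : ℕ}
    (hH : (⊤ : Subgroup H).lowerCentralSeries n = ⊥)
    (hN : N ≤ (⊤ : Subgroup H).lowerCentralSeries c) (hn : n ≤ c + j + 1) {k : H} (hk : k ∈ KS N j)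
    (t : H) : k * t = t * k := by
  have h := KS_eq_one hH hN (by omega : n ≤ c + (j + 1)) (KS_comm N hk t)
  exact commutatorElement_eq_one_iff_mul_comm.1 h

end inT

variable {G : Type*} [Group G]

theorem lcs_conj {D : Subgroup G} {g : G} (hg : ∀ z, z ∈ D ↔ g * z * g⁻¹ ∈ D) (c : ℕ) {z : G}
    (hz : z ∈ D.lowerCentralSeries c) : g * z * g⁻¹ ∈ D.lowerCentralSeries c := by
  have h1 : D.map (MulAut.conj g).toMonoidHom = D := by
    ext w
    rw [mem_map]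
    constructor
    · rintro ⟨v, hv, rfl⟩
      exact (hg v).1 hv
    · intro hw
      refine ⟨g⁻¹ * w * g, ?_, ?_⟩
      · rw [hg]
        have e : g * (g⁻¹ * w * g) * g⁻¹ = w := by group
        rwa [e]
      · change g * (g⁻¹ * w * g) * g⁻¹ = w
        group
  have h2 := Subgroup.map_lowerCentralSeries D (MulAut.conj g).toMonoidHom c
  rw [h1] at h2
  rw [← h2]
  exact mem_map_of_mem _ hz

theorem top_lcs_bot {T : Subgroup G} {n : ℕ} (hT : T.lowerCentralSeries n = ⊥) :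
    (⊤ : Subgroup T).lowerCentralSeries n = ⊥ := by
  have h := Subgroup.top_subtype_lowerCentralSeries T n
  rw [hT] at h
  exact (Subgroup.map_eq_bot_iff_of_injective _ T.subtype_injective).1 h

theorem lcs_subtype {T D : Subgroup G} (hDT : D ≤ T) (c : ℕ) {z : T}
    (hz : z ∈ (D.subgroupOf T).lowerCentralSeries c) : (z : G) ∈ D.lowerCentralSeries c := by
  have h := Subgroup.map_lowerCentralSeries (D.subgroupOf T) T.subtype c
  rw [Subgroup.map_subgroupOf_eq_of_le hDT] at h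
  rw [← h]
  exact mem_map_of_mem T.subtype hz

theorem lcs_top_of_lcs {T D : Subgroup G} (hDT : D ≤ T) (c : ℕ) {z : G} (hzT : z ∈ T)
    (hz : z ∈ D.lowerCentralSeries c) :
    (⟨z, hzT⟩ : T) ∈ (⊤ : Subgroup T).lowerCentralSeries c := by
  have h := Subgroup.top_subtype_lowerCentralSeries T c
  have h1 : D.lowerCentralSeries c ≤ T.lowerCentralSeries c := by
    clear hz h
    induction c with
    | zero => exact hDT
    | succ c ih => exact Subgroup.commutator_mono ih hDT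
  have h2 := h1 hz
  rw [← h, mem_map] at h2
  obtain ⟨w, hw, hwz⟩ := h2
  have : w = ⟨z, hzT⟩ := Subtype.ext hwz
  rwa [this] at hw

/-- Lemma A, in the form in which it is used in Theorem A -/
theorem lemA {D T : Subgroup G} (hDT : D ≤ T) {n l j : ℕ} (hTn : T.lowerCentralSeries n = ⊥)
    (hn : n ≤ l + j + 1) (hj : 1 ≤ j) {b s x q : G} (hb : b * b = 1) (hbT : b ∈ T)
    (hbD : ∀ z ∈ D, b * z * b⁻¹ ∈ D) (hs : s ∈ D) (hx : x ∈ T) (hxL : (⟨x, hx⟩ : T) ∈ Lam T j)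
    (he : b = s * x) (hq : q ∈ D) :
    ∃ a ∈ D.lowerCentralSeries l, ∃ κ ∈ T, κ * κ = 1 ∧ (∀ t ∈ T, κ * t = t * κ) ∧
      ⁅q ^ (2 ^ l), b⁆ = a * κ := by
  have hH := top_lcs_bot hTn
  have hb' : (⟨b, hbT⟩ : T) * ⟨b, hbT⟩ = 1 := Subtype.ext hb
  have h1 := core (H := T) (P := D.subgroupOf T) (τ := ⟨b, hbT⟩) (s := ⟨s, hDT hs⟩) (x := ⟨x, hx⟩)
    (q := ⟨q, hDT hq⟩) (i := j) hj hb'
    (fun w hw => mem_subgroupOf.2 (hbD _ (mem_subgroupOf.1 hw))) (mem_subgroupOf.2 hs) hxL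
    (Subtype.ext he) (mem_subgroupOf.2 hq) l
  obtain ⟨a, ha, κ, hκ, haκ⟩ := (mem_sup_of_normal_right).1 h1
  refine ⟨a, lcs_subtype hDT l ha, κ, κ.2, ?_, ?_, ?_⟩
  · have h2 := KS_eq_one hH (c := 0) le_top (by omega : n ≤ 0 + (l + j + 1)) (KS_sq hb' hκ)
    exact congrArg Subtype.val h2
  · intro t ht
    have h2 := commute_of_KS hH (c := 0) le_top (by omega : n ≤ 0 + (l + j) + 1) hκ ⟨t, ht⟩
    exact congrArg Subtype.val h2
  · have h2 := congrArg Subtype.val haκ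
    exact h2.symm

/-- an involution in `γ_(c+1)` and an element of depth `j` -/
theorem lemB {D T : Subgroup G} (hDT : D ≤ T) {n c j : ℕ} (hTn : T.lowerCentralSeries n = ⊥)
    (hn : n ≤ c + j + 1) {x e : G} (hx : x ∈ T) (hxL : (⟨x, hx⟩ : T) ∈ Lam T j) (he : e * e = 1)
    (heT : e ∈ T) (hec : e ∈ D.lowerCentralSeries c) :
    ⁅e, x⁆ * ⁅e, x⁆ = 1 ∧ ∀ t ∈ T, ⁅e, x⁆ * t = t * ⁅e, x⁆ := by
  have hH := top_lcs_bot hTn
  have he' : (⟨e, heT⟩ : T) * ⟨e, heT⟩ = 1 := Subtype.ext he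
  have hN : normalClosure {(⟨e, heT⟩ : T)} ≤ (⊤ : Subgroup T).lowerCentralSeries c := by
    refine normalClosure_le_normal ?_
    rintro _ rfl
    exact lcs_top_of_lcs hDT c heT hec
  have h1 := mem_Lam.1 hxL ⟨e, heT⟩ he' 0 ⟨e, heT⟩ (subset_normalClosure (Set.mem_singleton _))
  rw [Nat.zero_add] at h1
  constructor
  · have h2 := KS_eq_one hH hN (by omega : n ≤ c + (j + 1)) (KS_sq he' h1)
    exact congrArg Subtype.val h2
  · intro t ht
    have h2 := commute_of_KS hH hN (by omega : n ≤ c + j + 1) h1 ⟨t, ht⟩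
    exact congrArg Subtype.val h2

/-- the central elements of order at most two of `D` -/
def CZ (D : Subgroup G) : Subgroup G where
  carrier := {κ | κ ∈ D ∧ κ * κ = 1 ∧ ∀ t ∈ D, κ * t = t * κ}
  one_mem' := ⟨one_mem _, one_mul _, fun t _ => by rw [one_mul, mul_one]⟩
  mul_mem' := by
    rintro x y ⟨hx, hx2, hxc⟩ ⟨hy, hy2, hyc⟩
    refine ⟨mul_mem hx hy, ?_, ?_⟩
    · calc x * y * (x * y) = x * (y * x) * y := by group
        _ = x * (x * y) * y := by rw [hyc x hx]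
        _ = (x * x) * (y * y) := by group
        _ = 1 := by rw [hx2, hy2, one_mul]
    · intro t ht
      rw [mul_assoc, hyc t ht, ← mul_assoc, hxc t ht, mul_assoc]
  inv_mem' := by
    rintro x ⟨hx, hx2, hxc⟩
    refine ⟨inv_mem hx, ?_, ?_⟩
    · rw [← mul_inv_rev, hx2, inv_one]
    · intro t ht
      have := hxc t ht
      calc x⁻¹ * t = x⁻¹ * (t * x) * x⁻¹ := by group
        _ = x⁻¹ * (x * t) * x⁻¹ := by rw [this]
        _ = t * x⁻¹ := by group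

/-- the elements of order at most two of `D` which commute with all involutions of `D` -/
def EZ (D : Subgroup G) : Subgroup G where
  carrier := {e | e ∈ D ∧ e * e = 1 ∧ ∀ t ∈ D, t * t = 1 → e * t = t * e}
  one_mem' := ⟨one_mem _, one_mul _, fun t _ _ => by rw [one_mul, mul_one]⟩
  mul_mem' := by
    rintro x y ⟨hx, hx2, hxc⟩ ⟨hy, hy2, hyc⟩
    refine ⟨mul_mem hx hy, ?_, ?_⟩
    · calc x * y * (x * y) = x * (y * x) * y := by group
        _ = x * (x * y) * y := by rw [hyc x hx hx2]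
        _ = (x * x) * (y * y) := by group
        _ = 1 := by rw [hx2, hy2, one_mul]
    · intro t ht ht2
      rw [mul_assoc, hyc t ht ht2, ← mul_assoc, hxc t ht ht2, mul_assoc]
  inv_mem' := by
    rintro x ⟨hx, hx2, hxc⟩
    refine ⟨inv_mem hx, ?_, ?_⟩
    · rw [← mul_inv_rev, hx2, inv_one]
    · intro t ht ht2
      have := hxc t ht ht2
      calc x⁻¹ * t = x⁻¹ * (t * x) * x⁻¹ := by group
        _ = x⁻¹ * (x * t) * x⁻¹ := by rw [this]
        _ = t * x⁻¹ := by group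

theorem CZ_le_EZ (D : Subgroup G) : CZ D ≤ EZ D := fun _ h => ⟨h.1, h.2.1, fun t ht _ => h.2.2 t ht⟩

theorem EZ_comm {D : Subgroup G} {x y : G} (hx : x ∈ EZ D) (hy : y ∈ EZ D) : x * y = y * x :=
  hx.2.2 y hy.1 hy.2.1

theorem CZ_conj {D : Subgroup G} {g : G} (hg : ∀ z, z ∈ D ↔ g * z * g⁻¹ ∈ D) {κ : G}
    (hκ : κ ∈ CZ D) : g * κ * g⁻¹ ∈ CZ D := by
  obtain ⟨h1, h2, h3⟩ := hκ
  refine ⟨(hg κ).1 h1, ?_, ?_⟩
  · calc g * κ * g⁻¹ * (g * κ * g⁻¹) = g * (κ * κ) * g⁻¹ := by group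
      _ = 1 := by rw [h2]; group
  · intro t ht
    have ht' : g⁻¹ * t * g ∈ D := by
      rw [hg]
      have e : g * (g⁻¹ * t * g) * g⁻¹ = t := by group
      rwa [e]
    calc g * κ * g⁻¹ * t = g * (κ * (g⁻¹ * t * g)) * g⁻¹ := by group
      _ = g * ((g⁻¹ * t * g) * κ) * g⁻¹ := by rw [h3 _ ht']
      _ = t * (g * κ * g⁻¹) := by group

theorem EZ_conj {D : Subgroup G} {g : G} (hg : ∀ z, z ∈ D ↔ g * z * g⁻¹ ∈ D) {κ : G}
    (hκ : κ ∈ EZ D) : g * κ * g⁻¹ ∈ EZ D := by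
  obtain ⟨h1, h2, h3⟩ := hκ
  refine ⟨(hg κ).1 h1, ?_, ?_⟩
  · calc g * κ * g⁻¹ * (g * κ * g⁻¹) = g * (κ * κ) * g⁻¹ := by group
      _ = 1 := by rw [h2]; group
  · intro t ht ht2
    have ht' : g⁻¹ * t * g ∈ D := by
      rw [hg]
      have e : g * (g⁻¹ * t * g) * g⁻¹ = t := by group
      rwa [e]
    have ht2' : g⁻¹ * t * g * (g⁻¹ * t * g) = 1 := by
      calc g⁻¹ * t * g * (g⁻¹ * t * g) = g⁻¹ * (t * t) * g := by group
        _ = 1 := by rw [ht2]; group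
    calc g * κ * g⁻¹ * t = g * (κ * (g⁻¹ * t * g)) * g⁻¹ := by group
      _ = g * ((g⁻¹ * t * g) * κ) * g⁻¹ := by rw [h3 _ ht' ht2']
      _ = t * (g * κ * g⁻¹) := by group

/-- `E_c = (E ∩ γ_(c+1)(D)) C_0` -/
def Ec (D : Subgroup G) (c : ℕ) : Subgroup G where
  carrier := {v | v ∈ EZ D ∧ ∃ κ ∈ CZ D, v * κ ∈ D.lowerCentralSeries c}
  one_mem' := ⟨one_mem _, 1, one_mem _, by rw [one_mul]; exact one_mem _⟩
  mul_mem' := by
    rintro x y ⟨hx, κ, hκ, hxκ⟩ ⟨hy, κ', hκ', hyκ⟩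
    refine ⟨mul_mem hx hy, κ * κ', mul_mem hκ hκ', ?_⟩
    have e : x * y * (κ * κ') = (x * κ) * (y * κ') := by
      calc x * y * (κ * κ') = x * (y * κ) * κ' := by group
        _ = x * (κ * y) * κ' := by rw [← hκ.2.2 y hy.1]
        _ = (x * κ) * (y * κ') := by group
    rw [e]
    exact mul_mem hxκ hyκ
  inv_mem' := by
    rintro x ⟨hx, κ, hκ, hxκ⟩
    refine ⟨inv_mem hx, κ⁻¹, inv_mem hκ, ?_⟩
    have e : x⁻¹ * κ⁻¹ = (x * κ)⁻¹ := by rw [← hκ.2.2 x hx.1, mul_inv_rev]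
    rw [e]
    exact inv_mem hxκ

theorem CZ_le_Ec (D : Subgroup G) (c : ℕ) : CZ D ≤ Ec D c := fun κ h =>
  ⟨CZ_le_EZ D h, κ⁻¹, inv_mem h, by rw [mul_inv_cancel]; exact one_mem _⟩

theorem Ec_le_CZ {D : Subgroup G} {c : ℕ} (h : D.lowerCentralSeries c = ⊥) : Ec D c ≤ CZ D := by
  rintro v ⟨_, κ, hκ, hv⟩
  rw [h, mem_bot] at hv
  rw [eq_inv_of_mul_eq_one_left hv]
  exact inv_mem hκ

theorem Ec_conj {D : Subgroup G} {g : G} (hg : ∀ z, z ∈ D ↔ g * z * g⁻¹ ∈ D) {c : ℕ} {v : G}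
    (hv : v ∈ Ec D c) : g * v * g⁻¹ ∈ Ec D c := by
  obtain ⟨h1, κ, hκ, h2⟩ := hv
  refine ⟨EZ_conj hg h1, g * κ * g⁻¹, CZ_conj hg hκ, ?_⟩
  have e : g * v * g⁻¹ * (g * κ * g⁻¹) = g * (v * κ) * g⁻¹ := by group
  rw [e]
  exact lcs_conj hg c h2

end E1adH97
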