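import Mathlib

/-!
MP_1ad17e_al, section 6: the layer lemma. If `(ρ - 1) ^ (2 ^ a * (s + 1)) = 0` and
`ρ ^ (2 ^ (a + 1)) = 1` in a commutative ring, then `2 ^ s * (ρ ^ (2 ^ a) - 1)` is a multiple of
`2 ^ (s + 1)`.
-/

set_option autoImplicit false

namespace E1adH97

private theorem pow_two_pow {R : Type*} [CommRing R] (t : R) (a : ℕ) :
    ∃ g : R, (1 + t) ^ (2 ^ a) - 1 = t ^ (2 ^ a) + 2 * (t * g) := by
  induction a with
  | zero => exact ⟨0, by ring⟩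
  | succ a ih =>
    obtain ⟨g, hg⟩ := ih
    obtain ⟨e, he⟩ : ∃ e : ℕ, 2 ^ a = e + 1 := ⟨2 ^ a - 1, by
      have := Nat.one_le_two_pow (n := a)
      omega⟩
    refine ⟨t ^ e + 2 * (t * g ^ 2) + 2 * (t ^ (2 ^ a) * g) + 2 * g, ?_⟩
    have h1 : (1 + t) ^ (2 ^ a) = 1 + t ^ (2 ^ a) + 2 * (t * g) := by
      linear_combination hg
    have h2 : t ^ (2 ^ a) = t * t ^ e := by rw [he, pow_succ]; ring
    rw [pow_succ 2 a, pow_mul, pow_mul, h1]
    linear_combination (2 * 1) * h2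

private theorem expand {R : Type*} [CommRing R] (H h : R) (hH : H * H = -2 * H) (s : ℕ) :
    (H - 2 * h) ^ (s + 1) =
      (-2) ^ s * (H * ((1 + h) ^ (s + 1) - h ^ (s + 1))) + (-2 * h) ^ (s + 1) := by
  induction s with
  | zero => ring
  | succ s ih =>
    rw [pow_succ (H - 2 * h), ih]
    have e : (-2 * h) ^ (s + 1) = (-2) ^ (s + 1) * h ^ (s + 1) := mul_pow _ _ _
    have e2 : (-2 * h) ^ (s + 1 + 1) = (-2) ^ (s + 2) * h ^ (s + 2) := mul_pow _ _ _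
    rw [e, e2]
    linear_combination ((-2) ^ s * ((1 + h) ^ (s + 1) - h ^ (s + 1))) * hH

/-- the layer lemma in a commutative ring -/
theorem layer_ring {R : Type*} [CommRing R] (ρ : R) (a s : ℕ)
    (h1 : (ρ - 1) ^ (2 ^ a * (s + 1)) = 0) (h2 : ρ ^ (2 ^ (a + 1)) = 1) :
    ∃ c : R, 2 ^ s * (ρ ^ (2 ^ a) - 1) = 2 ^ (s + 1) * c := by
  obtain ⟨g, hg⟩ := pow_two_pow (ρ - 1) a
  rw [show 1 + (ρ - 1) = ρ by ring] at hg
  set H := ρ ^ (2 ^ a) - 1 with hHd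
  set h := (ρ - 1) * g with hh
  have hH : H * H = -2 * H := by
    have e : ρ ^ (2 ^ (a + 1)) = ρ ^ (2 ^ a) * ρ ^ (2 ^ a) := by
      rw [pow_succ 2 a, pow_mul, pow_two]
    rw [e] at h2
    rw [hHd]
    linear_combination h2
  have hP : (H - 2 * h) ^ (s + 1) = 0 := by
    rw [hg, show (ρ - 1) ^ 2 ^ a + 2 * h - 2 * h = (ρ - 1) ^ 2 ^ a by ring, ← pow_mul]
    exact h1
  rw [expand H h hH s] at hP
  have hnil : IsNilpotent h := by
    have : IsNilpotent (ρ - 1) := ⟨_, h1⟩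
    exact Commute.isNilpotent_mul_right (Commute.all _ _) this
  have hu : IsUnit ((1 + h) ^ (s + 1) - h ^ (s + 1)) := by
    have h3 : IsUnit ((1 + h) ^ (s + 1)) := (hnil.isUnit_one_add).pow _
    have h4 : IsNilpotent (-(h ^ (s + 1))) := (hnil.pow_succ s).neg
    rw [sub_eq_add_neg]
    exact h4.isUnit_add_left_of_commute h3 (Commute.all _ _)
  obtain ⟨v, hv⟩ := hu.exists_right_inv
  refine ⟨(-1) ^ s * (2 * 0 + (-1) ^ s * (h ^ (s + 1) * v)), ?_⟩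
  have e1 : ((-2 : R)) ^ s = (-1) ^ s * 2 ^ s := by
    rw [show (-2 : R) = (-1) * 2 by ring, mul_pow]
  have e2 : (-2 * h) ^ (s + 1) = (-1) ^ (s + 1) * (2 ^ (s + 1) * h ^ (s + 1)) := by
    rw [show (-2 * h) = (-1) * (2 * h) by ring, mul_pow, mul_pow]
  have e3 : ((-1 : R)) ^ s * (-1) ^ s = 1 := by
    rw [← mul_pow]
    norm_num
  rw [e1, e2] at hP
  -- multiply by `(-1) ^ s * v`
  have h5 := congrArg (fun z => (-1) ^ s * (z * v)) hP
  simp only [zero_mul, mul_zero] at h5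
  have e4 : ((-1 : R)) ^ (s + 1) = -((-1) ^ s) := by ring
  rw [e4] at h5
  linear_combination h5 - (2 ^ s * H * (((1 + h) ^ (s + 1) - h ^ (s + 1)) * v)) * e3
    - (2 ^ s * H) * hv

end E1adH97
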