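import Pool.Agent.Lib.MP_1ad17e_al_h97.Layer

/-!
MP_1ad17e_al, section 6: the layer lemma (6.4).
-/

set_option autoImplicit false

namespace E1adH97

open scoped commutatorElement

/-- the layer lemma for an endomorphism of an abelian group -/
theorem layer_end {V : Type*} [AddCommGroup V] (ρ : Module.End ℤ V) (a s : ℕ)
    (h1 : (ρ - 1) ^ (2 ^ a * (s + 1)) = 0) (h2 : ρ ^ (2 ^ (a + 1)) = 1) (v : V) :
    ∃ w : V, (2 : ℤ) ^ s • ((ρ ^ (2 ^ a)) v - v) = (2 : ℤ) ^ (s + 1) • w := by
  let S : Subalgebra ℤ (Module.End ℤ V) := Algebra.adjoin ℤ {ρ}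
  have hcS : IsMulCommutative S := Algebra.isMulCommutative_adjoin ℤ (by
    rintro x rfl y rfl
    rfl)
  let _ : CommRing S := { (inferInstance : Ring S) with mul_comm := hcS.is_comm.comm }
  have hρ : ρ ∈ S := Algebra.subset_adjoin (Set.mem_singleton ρ)
  obtain ⟨c, hc⟩ := layer_ring (⟨ρ, hρ⟩ : S) a s (Subtype.ext h1) (Subtype.ext h2)
  have h3 := congrArg (fun z : S => (z : Module.End ℤ V)) hc
  have h4 : (2 : Module.End ℤ V) ^ s * (ρ ^ (2 ^ a) - 1) = 2 ^ (s + 1) * (c : Module.End ℤ V) := h3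
  have h5 := congrArg (fun z : Module.End ℤ V => z v) h4
  refine ⟨(c : Module.End ℤ V) v, ?_⟩
  have key : ∀ (m : ℕ) (z : V), ((2 : Module.End ℤ V) ^ m) z = (2 : ℤ) ^ m • z := by
    intro m z
    induction m with
    | zero => simp
    | succ m ih =>
      rw [pow_succ', Module.End.mul_apply, ih, pow_succ', mul_smul]
      have : (2 : Module.End ℤ V) = (1 : Module.End ℤ V) + 1 := by norm_num
      rw [this, LinearMap.add_apply, Module.End.one_apply, two_smul]
  simp only [Module.End.mul_apply, LinearMap.sub_apply, Module.End.one_apply] at h5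
  rw [key, key] at h5
  exact h5

/-- an endomorphism of odd order which is trivial on `2 ^ s V / 2 ^ (s + 1) V` is trivial on
`2 ^ s V` -/
theorem odd_trivial {V : Type*} [AddCommGroup V] (f : Module.End ℤ V) (o : ℕ) (ho : Odd o)
    (hf : f ^ o = 1) (s N : ℕ) (hN : ∀ v : V, (2 : ℤ) ^ N • v = 0)
    (h : ∀ v : V, ∃ w, (2 : ℤ) ^ s • (f v - v) = (2 : ℤ) ^ (s + 1) • w) (v : V) :
    (2 : ℤ) ^ s • (f v - v) = 0 := by
  have key : ∀ t : ℕ, ∀ v : V, ∃ w, (2 : ℤ) ^ s • (f v - v) = (2 : ℤ) ^ (s + t + 1) • w := by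
    intro t
    induction t with
    | zero => exact h
    | succ t ih =>
      intro v
      obtain ⟨w, hw⟩ := ih v
      obtain ⟨w', hw'⟩ := ih w
      set δ : V := (2 : ℤ) ^ s • (f v - v) with hδ
      -- `f δ - δ`
      have h1 : f δ - δ = (2 : ℤ) ^ (s + (t + 1) + 1) • ((2 : ℤ) ^ t • w') := by
        have e1 : f δ - δ = (2 : ℤ) ^ (t + 1) • ((2 : ℤ) ^ s • (f w - w)) := by
          rw [hw, map_zsmul, ← smul_sub, smul_smul, ← pow_add]
          congr 2
          omega
        rw [e1, hw', smul_smul, smul_smul, ← pow_add, ← pow_add]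
        congr 2
        omega
      -- powers of `f`
      have h2 : ∀ i : ℕ, ∃ z, (f ^ i) δ - δ = (2 : ℤ) ^ (s + (t + 1) + 1) • z := by
        intro i
        induction i with
        | zero => exact ⟨0, by simp⟩
        | succ i ihi =>
          obtain ⟨z, hz⟩ := ihi
          refine ⟨f z + (2 : ℤ) ^ t • w', ?_⟩
          rw [pow_succ', Module.End.mul_apply, smul_add, ← h1, ← map_zsmul, ← hz, map_sub]
          abel
      have h3 : ∀ i : ℕ, ∃ z, (2 : ℤ) ^ s • ((f ^ i) v - v) = (i : ℤ) • δ +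
          (2 : ℤ) ^ (s + (t + 1) + 1) • z := by
        intro i
        induction i with
        | zero => exact ⟨0, by simp⟩
        | succ i ihi =>
          obtain ⟨z, hz⟩ := ihi
          obtain ⟨z', hz'⟩ := h2 i
          refine ⟨z + z', ?_⟩
          have e1 : (2 : ℤ) ^ s • ((f ^ (i + 1)) v - v) =
              (f ^ i) δ + (2 : ℤ) ^ s • ((f ^ i) v - v) := by
            rw [hδ, map_zsmul, map_sub, pow_succ, Module.End.mul_apply, ← smul_add]
            congr 1
            abel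
          rw [e1, hz, smul_add, ← hz']
          push_cast
          rw [add_smul, one_smul]
          abel
      obtain ⟨z, hz⟩ := h3 o
      rw [hf, Module.End.one_apply, sub_self, smul_zero] at hz
      obtain ⟨q, hq⟩ := ho
      refine ⟨-((q : ℤ) • w) - z, ?_⟩
      have e3 : ∀ d : V, ((2 * q + 1 : ℕ) : ℤ) • d = (q : ℤ) • ((2 : ℤ) • d) + d := by
        intro d
        push_cast
        module
      rw [hq, e3] at hz
      have e2 : δ = -((q : ℤ) • ((2 : ℤ) • δ)) - (2 : ℤ) ^ (s + (t + 1) + 1) • z := by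
        calc δ = ((q : ℤ) • ((2 : ℤ) • δ) + δ + (2 : ℤ) ^ (s + (t + 1) + 1) • z) -
              (q : ℤ) • ((2 : ℤ) • δ) - (2 : ℤ) ^ (s + (t + 1) + 1) • z := by abel
          _ = 0 - (q : ℤ) • ((2 : ℤ) • δ) - (2 : ℤ) ^ (s + (t + 1) + 1) • z := by rw [← hz]
          _ = _ := by rw [zero_sub]
      rw [e2]
      have e4 : (2 : ℤ) • δ = (2 : ℤ) ^ (s + (t + 1) + 1) • w := by
        rw [hw, smul_smul, ← pow_succ']
        congr 2
      rw [e4, smul_sub, smul_neg, smul_comm]
  obtain ⟨w, hw⟩ := key N v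
  rw [hw, show s + N + 1 = N + (s + 1) by omega, pow_add, mul_smul, hN]

end E1adH97
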